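import Pool.Agent.H243R3.PCP.Quad

/-!
# Six-regular bipartite expanders

The construction and the estimates follow helper243's file for `MP_e534f3_co`, with every cell a
complete bipartite graph on ten vertices in place of a clique.
-/

namespace Pool.Agent.H173H

open Finset

/-- The energy of a function on the vertices (ordered pairs). -/
noncomputable def energy {V : Type} [Fintype V] (G : SimpleGraph V) (F : V → ℝ) : ℝ :=
  open scoped Classical in
  ∑ p : V × V, if G.Adj p.1 p.2 then (F p.1 - F p.2) ^ 2 else 0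

open scoped Classical in
/-- The ordered pairs of adjacent vertices, the first in `S` and the second outside. -/
noncomputable def cut {V : Type} [Fintype V] (G : SimpleGraph V) (S : Finset V) :
    Finset (V × V) :=
  Finset.univ.filter fun p => G.Adj p.1 p.2 ∧ p.1 ∈ S ∧ p.2 ∉ S

lemma sum_le_energy {V : Type} [Fintype V] (G : SimpleGraph V) (F : V → ℝ) {X : Type} [Fintype X]
    (φ : X → V × V) (hφ : Function.Injective φ) (hadj : ∀ x, G.Adj (φ x).1 (φ x).2) :
    ∑ x, (F (φ x).1 - F (φ x).2) ^ 2 ≤ energy G F := by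
  classical
  have h1 : ∑ x, (F (φ x).1 - F (φ x).2) ^ 2 =
      ∑ p ∈ Finset.univ.map ⟨φ, hφ⟩,
        if G.Adj p.1 p.2 then (F p.1 - F p.2) ^ 2 else 0 := by
    rw [Finset.sum_map]
    refine Finset.sum_congr rfl fun x _ => ?_
    simp only [Function.Embedding.coeFn_mk]
    rw [if_pos (hadj x)]
  rw [h1]
  unfold energy
  refine (Finset.sum_le_sum_of_subset_of_nonneg (Finset.subset_univ _) ?_).trans (le_of_eq ?_)
  · intro i _ _
    split_ifs
    · positivity
    · exact le_refl _
  · refine Finset.sum_congr rfl fun x _ => ?_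
    congr

lemma energy_indicator {V : Type} [Fintype V] (G : SimpleGraph V) (S : Finset V) :
    energy G (Set.indicator (S : Set V) 1) ≤ 2 * (cut G S).card := by
  classical
  have hsplit : energy G (Set.indicator (S : Set V) 1) =
      ∑ p : V × V, ((if p ∈ cut G S then (1 : ℝ) else 0) +
        (if p.swap ∈ cut G S then (1 : ℝ) else 0)) := by
    unfold energy
    refine Finset.sum_congr rfl fun p _ => ?_
    obtain ⟨a, b⟩ := p
    simp only [cut, mem_filter, mem_univ, true_and, Prod.swap_prod_mk, Set.indicator_apply,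
      mem_coe, Pi.one_apply]
    by_cases hab : G.Adj a b
    · have hba : G.Adj b a := hab.symm
      by_cases ha : a ∈ S <;> by_cases hb : b ∈ S <;> simp [hab, hba, ha, hb]
    · have hba : ¬ G.Adj b a := fun h => hab h.symm
      simp [hab, hba]
  rw [hsplit, Finset.sum_add_distrib]
  have h1 : ∑ p : V × V, (if p ∈ cut G S then (1 : ℝ) else 0) = (cut G S).card := by
    rw [Finset.sum_ite_mem, Finset.univ_inter, Finset.sum_const, nsmul_eq_mul, mul_one]
  have h2 : ∑ p : V × V, (if p.swap ∈ cut G S then (1 : ℝ) else 0) = (cut G S).card := by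
    rw [← h1]
    exact Fintype.sum_equiv (Equiv.prodComm V V) _ _ (fun p => rfl)
  rw [h1, h2]
  linarith

section Graph

variable (n : ℕ)

/-- The torus. -/
abbrev Tor := ZMod n × ZMod n

/-- The vertices. -/
abbrev Vtx := (Tor n × Bool) × Fin 5 × Bool

/-- The five permutations of the torus. -/
def T : Fin 5 → Equiv.Perm (Tor n)
  | 0 => Equiv.refl _
  | 1 => ⟨fun z => (z.1 + z.2, z.2), fun z => (z.1 - z.2, z.2), fun z => by simp, fun z => by simp⟩
  | 2 => ⟨fun z => (z.1, z.2 + z.1), fun z => (z.1, z.2 - z.1), fun z => by simp, fun z => by simp⟩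
  | 3 => ⟨fun z => (z.1 + 1, z.2), fun z => (z.1 - 1, z.2), fun z => by simp, fun z => by simp⟩
  | 4 => ⟨fun z => (z.1, z.2 + 1), fun z => (z.1, z.2 - 1), fun z => by simp, fun z => by simp⟩

/-- The cell reached from the cell `c` by the move `g`. -/
def mv (g : Fin 5) (c : Tor n × Bool) : Tor n × Bool :=
  if c.2 then ((T n g).symm c.1, false) else (T n g c.1, true)

lemma mv_mv (g : Fin 5) (c : Tor n × Bool) : mv n g (mv n g c) = c := by
  obtain ⟨x, e⟩ := c
  cases e <;> simp [mv]

lemma mv_ne (g : Fin 5) (c : Tor n × Bool) : mv n g c ≠ c := by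
  obtain ⟨x, e⟩ := c
  cases e <;> simp [mv]

/-- The graph: every cell is a complete bipartite graph on ten vertices, and the vertex
`(c, g, j)` is joined to the vertex `(mv g c, g, !j)`. -/
def Gb : SimpleGraph (Vtx n) where
  Adj u v := u.2.2 ≠ v.2.2 ∧ (u.1 = v.1 ∨ (v.1 = mv n u.2.1 u.1 ∧ v.2.1 = u.2.1))
  symm := ⟨by
    rintro ⟨c, g, j⟩ ⟨c', g', j'⟩ ⟨h0, h1 | ⟨h1, h2⟩⟩
    · exact ⟨h0.symm, Or.inl h1.symm⟩
    · simp only at h1 h2
      subst h1 h2
      exact ⟨h0.symm, Or.inr ⟨(mv_mv n _ _).symm, rfl⟩⟩⟩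
  loopless := ⟨fun u h => h.1 rfl⟩

lemma Gb_adj (u v : Vtx n) : (Gb n).Adj u v ↔
    u.2.2 ≠ v.2.2 ∧ (u.1 = v.1 ∨ (v.1 = mv n u.2.1 u.1 ∧ v.2.1 = u.2.1)) := Iff.rfl

lemma Gb_triangle (u v w : Vtx n) (h1 : (Gb n).Adj u v) (h2 : (Gb n).Adj v w)
    (h3 : (Gb n).Adj u w) : False := by
  have a := h1.1
  have b := h2.1
  have c := h3.1
  revert a b c
  generalize u.2.2 = x
  generalize v.2.2 = y
  generalize w.2.2 = z
  revert x y z
  decide

lemma Gb_degree (v : Vtx n) : ((Gb n).neighborSet v).ncard = 6 := by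
  obtain ⟨c, g, j⟩ := v
  have h1 : (Gb n).neighborSet (c, g, j) =
      ((fun w : Fin 5 => ((c, w, !j) : Vtx n)) '' Set.univ) ∪ {((mv n g c, g, !j) : Vtx n)} := by
    ext ⟨c', g', j'⟩
    rw [SimpleGraph.mem_neighborSet, Gb_adj, Set.mem_union, Set.mem_image, Set.mem_singleton_iff]
    constructor
    · rintro ⟨h0, h1 | ⟨h1, h2⟩⟩
      · left
        simp only at h1 h0
        refine ⟨g', Set.mem_univ _, ?_⟩
        rw [h1]
        cases j <;> cases j' <;> simp_all
      · right
        simp only at h1 h2 h0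
        rw [h1, h2]
        cases j <;> cases j' <;> simp_all
    · rintro (⟨w, -, h⟩ | h)
      · obtain ⟨h1, h2⟩ := Prod.mk.inj h
        obtain ⟨h2, h3⟩ := Prod.mk.inj h2
        subst h1 h2 h3
        exact ⟨by simp, Or.inl rfl⟩
      · obtain ⟨h1, h2⟩ := Prod.mk.inj h
        obtain ⟨h2, h3⟩ := Prod.mk.inj h2
        subst h1 h2 h3
        exact ⟨by simp, Or.inr ⟨rfl, rfl⟩⟩
  rw [h1, Set.ncard_union_eq, Set.ncard_image_of_injective, Set.ncard_singleton, Set.ncard_univ]
  · simp
  · intro a b h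
    exact (Prod.mk.inj (Prod.mk.inj h).2).1
  · rw [Set.disjoint_singleton_right]
    rintro ⟨w, -, h⟩
    rw [Prod.mk.injEq] at h
    exact mv_ne n g c h.1.symm

variable [NeZero n]

lemma card_Vtx : Fintype.card (Vtx n) = 20 * n ^ 2 := by
  simp [Fintype.card_prod, ZMod.card]
  ring

/-! ## Expansion -/

lemma sq_add_four (a b c d : ℝ) : (a + b + c + d) ^ 2 ≤ 4 * (a ^ 2 + b ^ 2 + c ^ 2 + d ^ 2) := by
  nlinarith [sq_nonneg (a - b), sq_nonneg (a - c), sq_nonneg (a - d), sq_nonneg (b - c),
    sq_nonneg (b - d), sq_nonneg (c - d)]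

/-- A sum over the torus of squared differences along edges. -/
lemma sum_tor_le (F : Vtx n → ℝ) (α β : Tor n → Vtx n) (hα : Function.Injective α)
    (hadj : ∀ x, (Gb n).Adj (α x) (β x)) :
    ∑ x, (F (α x) - F (β x)) ^ 2 ≤ energy (Gb n) F := by
  refine sum_le_energy (Gb n) F (fun x => (α x, β x)) ?_ hadj
  intro x y h
  exact hα (Prod.mk.inj h).1

lemma energy_nonneg (F : Vtx n → ℝ) : 0 ≤ energy (Gb n) F := by
  unfold energy
  refine Finset.sum_nonneg fun p _ => ?_
  split_ifs
  · positivity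
  · exact le_refl _

/-- Moving along `g`. -/
lemma step_le (F : Vtx n → ℝ) (g : Fin 5) :
    ∑ x : Tor n, (F ((T n g x, false), 0, false) - F ((x, false), 0, false)) ^ 2 ≤
      16 * energy (Gb n) F := by
  have h1 : ∑ x : Tor n, (F ((T n g x, false), 0, false) - F ((T n g x, true), 0, true)) ^ 2 ≤
      energy (Gb n) F := by
    apply sum_tor_le n F
    · intro x y h
      exact (T n g).injective (Prod.mk.inj (Prod.mk.inj h).1).1
    · intro x
      exact ⟨by simp, Or.inr ⟨rfl, rfl⟩⟩
  have h2 : ∑ x : Tor n, (F ((T n g x, true), 0, true) - F ((T n g x, true), g, false)) ^ 2 ≤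
      energy (Gb n) F := by
    apply sum_tor_le n F
    · intro x y h
      exact (T n g).injective (Prod.mk.inj (Prod.mk.inj h).1).1
    · intro x
      exact ⟨by simp, Or.inl rfl⟩
  have h3 : ∑ x : Tor n, (F ((T n g x, true), g, false) - F ((x, false), g, true)) ^ 2 ≤
      energy (Gb n) F := by
    apply sum_tor_le n F
    · intro x y h
      exact (T n g).injective (Prod.mk.inj (Prod.mk.inj h).1).1
    · intro x
      refine ⟨by simp, Or.inr ⟨?_, rfl⟩⟩
      simp [mv]
  have h4 : ∑ x : Tor n, (F ((x, false), g, true) - F ((x, false), 0, false)) ^ 2 ≤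
      energy (Gb n) F := by
    apply sum_tor_le n F
    · intro x y h
      exact (Prod.mk.inj (Prod.mk.inj h).1).1
    · intro x
      exact ⟨by simp, Or.inl rfl⟩
  calc ∑ x : Tor n, (F ((T n g x, false), 0, false) - F ((x, false), 0, false)) ^ 2
      ≤ ∑ x : Tor n, 4 * ((F ((T n g x, false), 0, false) - F ((T n g x, true), 0, true)) ^ 2 +
        (F ((T n g x, true), 0, true) - F ((T n g x, true), g, false)) ^ 2 +
        (F ((T n g x, true), g, false) - F ((x, false), g, true)) ^ 2 +
        (F ((x, false), g, true) - F ((x, false), 0, false)) ^ 2) := by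
        refine Finset.sum_le_sum fun x _ => ?_
        refine le_trans (le_of_eq ?_) (sq_add_four _ _ _ _)
        ring
    _ = 4 * (∑ x : Tor n, (F ((T n g x, false), 0, false) - F ((T n g x, true), 0, true)) ^ 2 +
        ∑ x : Tor n, (F ((T n g x, true), 0, true) - F ((T n g x, true), g, false)) ^ 2 +
        ∑ x : Tor n, (F ((T n g x, true), g, false) - F ((x, false), g, true)) ^ 2 +
        ∑ x : Tor n, (F ((x, false), g, true) - F ((x, false), 0, false)) ^ 2) := by
        rw [← Finset.mul_sum, Finset.sum_add_distrib, Finset.sum_add_distrib,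
          Finset.sum_add_distrib]
    _ ≤ 16 * energy (Gb n) F := by linarith

/-- The Poincare inequality for the values on the base vertices. -/
lemma base_le (F : Vtx n → ℝ) (m : ℝ) (hm : ∑ x : Tor n, (F ((x, false), 0, false) - m) = 0) :
    ∑ x : Tor n, (F ((x, false), 0, false) - m) ^ 2 ≤ 6656 * energy (Gb n) F := by
  have hP := Pool.Agent.H243R3.PCP.poincare (fun x : Tor n => F ((x, false), 0, false) - m) hm
  have e1 := step_le n F 1
  have e2 := step_le n F 2
  have e3 := step_le n F 3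
  have e4 := step_le n F 4
  have hT1 : ∀ x : Tor n, T n 1 x = (x.1 + x.2, x.2) := fun x => rfl
  have hT2 : ∀ x : Tor n, T n 2 x = (x.1, x.2 + x.1) := fun x => rfl
  have hT3 : ∀ x : Tor n, T n 3 x = (x.1 + 1, x.2) := fun x => rfl
  have hT4 : ∀ x : Tor n, T n 4 x = (x.1, x.2 + 1) := fun x => rfl
  simp only [hT1] at e1
  simp only [hT2] at e2
  simp only [hT3] at e3
  simp only [hT4] at e4
  simp only [sub_sub_sub_cancel_right] at hP
  linarith

lemma two_le (F : Vtx n → ℝ) (α β γ : Tor n → Vtx n) (hα : Function.Injective α)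
    (hβ : Function.Injective β)
    (h1 : ∀ x, (Gb n).Adj (α x) (β x)) (h2 : ∀ x, (Gb n).Adj (β x) (γ x)) :
    ∑ x, (F (α x) - F (γ x)) ^ 2 ≤ 4 * energy (Gb n) F := by
  have e1 := sum_tor_le n F α β hα h1
  have e2 := sum_tor_le n F β γ hβ h2
  calc ∑ x, (F (α x) - F (γ x)) ^ 2
      ≤ ∑ x, (2 * (F (α x) - F (β x)) ^ 2 + 2 * (F (β x) - F (γ x)) ^ 2) := by
        refine Finset.sum_le_sum fun x _ => ?_
        nlinarith [sq_nonneg ((F (α x) - F (β x)) - (F (β x) - F (γ x)))]
    _ = 2 * ∑ x, (F (α x) - F (β x)) ^ 2 + 2 * ∑ x, (F (β x) - F (γ x)) ^ 2 := by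
        rw [Finset.sum_add_distrib, Finset.mul_sum, Finset.mul_sum]
    _ ≤ 4 * energy (Gb n) F := by linarith

/-- Distance of the value at a vertex to the value at the base vertex over the same point. -/
lemma dev_le (F : Vtx n → ℝ) (e : Bool) (w : Fin 5 × Bool) :
    ∑ x : Tor n, (F ((x, e), w) - F ((x, false), 0, false)) ^ 2 ≤ 16 * energy (Gb n) F := by
  have hE := energy_nonneg n F
  have hcell : ∀ e : Bool, ∑ x : Tor n, (F ((x, e), w) - F ((x, e), 0, false)) ^ 2 ≤
      4 * energy (Gb n) F := by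
    intro e
    obtain ⟨g, j⟩ := w
    cases j with
    | true =>
      refine le_trans ?_ (by linarith : energy (Gb n) F ≤ 4 * energy (Gb n) F)
      apply sum_tor_le n F
      · intro x y h
        exact (Prod.mk.inj (Prod.mk.inj h).1).1
      · intro x
        exact ⟨by simp, Or.inl rfl⟩
    | false =>
      refine two_le n F _ (fun x => ((x, e), 0, true)) _ ?_ ?_ ?_ ?_
      · intro x y h
        exact (Prod.mk.inj (Prod.mk.inj h).1).1
      · intro x y h
        exact (Prod.mk.inj (Prod.mk.inj h).1).1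
      · intro x
        exact ⟨by simp, Or.inl rfl⟩
      · intro x
        exact ⟨by simp, Or.inl rfl⟩
  have hcross : ∑ x : Tor n, (F ((x, true), 0, false) - F ((x, false), 0, false)) ^ 2 ≤
      4 * energy (Gb n) F := by
    refine two_le n F _ (fun x => ((x, false), 0, true)) _ ?_ ?_ ?_ ?_
    · intro x y h
      exact (Prod.mk.inj (Prod.mk.inj h).1).1
    · intro x y h
      exact (Prod.mk.inj (Prod.mk.inj h).1).1
    · intro x
      exact ⟨by simp, Or.inr ⟨rfl, rfl⟩⟩
    · intro x
      exact ⟨by simp, Or.inl rfl⟩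
  cases e with
  | false => exact (hcell false).trans (by linarith)
  | true =>
    calc ∑ x : Tor n, (F ((x, true), w) - F ((x, false), 0, false)) ^ 2
        ≤ ∑ x : Tor n, (2 * (F ((x, true), w) - F ((x, true), 0, false)) ^ 2 +
          2 * (F ((x, true), 0, false) - F ((x, false), 0, false)) ^ 2) := by
          refine Finset.sum_le_sum fun x _ => ?_
          nlinarith [sq_nonneg ((F ((x, true), w) - F ((x, true), 0, false)) -
            (F ((x, true), 0, false) - F ((x, false), 0, false)))]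
      _ = 2 * ∑ x : Tor n, (F ((x, true), w) - F ((x, true), 0, false)) ^ 2 +
          2 * ∑ x : Tor n, (F ((x, true), 0, false) - F ((x, false), 0, false)) ^ 2 := by
          rw [Finset.sum_add_distrib, Finset.mul_sum, Finset.mul_sum]
      _ ≤ 16 * energy (Gb n) F := by linarith [hcell true]

/-- The mean of the values on the base vertices. -/
noncomputable def mean (F : Vtx n → ℝ) : ℝ :=
  (∑ x : Tor n, F ((x, false), 0, false)) / Fintype.card (Tor n)

lemma total_le (F : Vtx n → ℝ) :
    ∑ v, (F v - mean n F) ^ 2 ≤ 266880 * energy (Gb n) F := by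
  have hm : ∑ x : Tor n, (F ((x, false), 0, false) - mean n F) = 0 := by
    rw [Finset.sum_sub_distrib, Finset.sum_const, nsmul_eq_mul, mean, Finset.card_univ]
    have : (Fintype.card (Tor n) : ℝ) ≠ 0 := by
      exact_mod_cast Fintype.card_ne_zero
    field_simp
    ring
  have hb := base_le n F _ hm
  have hsplit : ∀ H : Vtx n → ℝ, ∑ v, H v = ∑ q : Bool × Fin 5 × Bool,
      ∑ x : Tor n, H ((x, q.1), q.2) := by
    intro H
    rw [← Fintype.sum_prod_type' (f := fun (q : Bool × Fin 5 × Bool) (x : Tor n) =>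
      H ((x, q.1), q.2))]
    refine Fintype.sum_equiv
      ⟨fun v => ((v.1.2, v.2), v.1.1), fun p => ((p.2, p.1.1), p.1.2), fun v => rfl,
        fun v => rfl⟩ _ _ ?_
    intro v
    rfl
  rw [hsplit]
  have h1 : ∀ q : Bool × Fin 5 × Bool, ∑ x : Tor n, (F ((x, q.1), q.2) - mean n F) ^ 2 ≤
      13344 * energy (Gb n) F := by
    intro q
    calc ∑ x : Tor n, (F ((x, q.1), q.2) - mean n F) ^ 2
        ≤ ∑ x : Tor n, (2 * (F ((x, q.1), q.2) - F ((x, false), 0, false)) ^ 2 +
          2 * (F ((x, false), 0, false) - mean n F) ^ 2) := by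
          refine Finset.sum_le_sum fun x _ => ?_
          nlinarith [sq_nonneg ((F ((x, q.1), q.2) - F ((x, false), 0, false)) -
            (F ((x, false), 0, false) - mean n F))]
      _ = 2 * ∑ x : Tor n, (F ((x, q.1), q.2) - F ((x, false), 0, false)) ^ 2 +
          2 * ∑ x : Tor n, (F ((x, false), 0, false) - mean n F) ^ 2 := by
          rw [Finset.sum_add_distrib, Finset.mul_sum, Finset.mul_sum]
      _ ≤ 13344 * energy (Gb n) F := by linarith [dev_le n F q.1 q.2]
  calc ∑ q : Bool × Fin 5 × Bool, ∑ x : Tor n, (F ((x, q.1), q.2) - mean n F) ^ 2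
      ≤ ∑ q : Bool × Fin 5 × Bool, 13344 * energy (Gb n) F := Finset.sum_le_sum fun q _ => h1 q
    _ = 266880 * energy (Gb n) F := by
        rw [Finset.sum_const, Finset.card_univ, nsmul_eq_mul]
        have : Fintype.card (Bool × Fin 5 × Bool) = 20 := rfl
        rw [this]
        push_cast
        ring

/-- Expansion of the graphs. -/
lemma Gb_expansion (S : Finset (Vtx n)) (hS : 2 * S.card ≤ Fintype.card (Vtx n)) :
    (1 / 1067520 : ℝ) * S.card ≤ (cut (Gb n) S).card := by
  classical
  set F : Vtx n → ℝ := Set.indicator (S : Set (Vtx n)) 1 with hF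
  have h1 := total_le n F
  have h2 := energy_indicator (Gb n) S
  rw [← hF] at h2
  set m := mean n F with hm
  have h3 : (S.card : ℝ) / 2 ≤ ∑ v, (F v - m) ^ 2 := by
    have h4 : ∑ v, (F v - m) ^ 2 = S.card * (1 - m) ^ 2 + (Sᶜ : Finset (Vtx n)).card * m ^ 2 := by
      rw [← Finset.sum_add_sum_compl S]
      congr 1
      · rw [Finset.sum_congr rfl (g := fun _ => (1 - m) ^ 2), Finset.sum_const, nsmul_eq_mul]
        intro v hv
        rw [hF, Set.indicator_of_mem (by exact_mod_cast hv), Pi.one_apply]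
      · rw [Finset.sum_congr rfl (g := fun _ => m ^ 2), Finset.sum_const, nsmul_eq_mul]
        intro v hv
        rw [mem_compl] at hv
        rw [hF, Set.indicator_of_notMem (by exact_mod_cast hv)]
        ring
    have h5 : (S.card : ℝ) ≤ (Sᶜ : Finset (Vtx n)).card := by
      have := Finset.card_add_card_compl S
      exact_mod_cast (by omega : S.card ≤ (Sᶜ : Finset (Vtx n)).card)
    rw [h4]
    have h6 : (0 : ℝ) ≤ S.card := by positivity
    have h7 : (S.card : ℝ) * m ^ 2 ≤ (Sᶜ : Finset (Vtx n)).card * m ^ 2 :=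
      mul_le_mul_of_nonneg_right h5 (sq_nonneg m)
    nlinarith [mul_nonneg h6 (sq_nonneg (2 * m - 1))]
  linarith

end Graph

end Pool.Agent.H173H
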